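import Pool.Agent.Helper16.AZ.Stmts

/-!
Module DEC: the decomposition.
-/

open Finset Filter MeasureTheory Topology
open scoped ComplexConjugate InnerProductSpace

namespace Pool.Agent.Helper16.AZ

open Pool.Agent.Helper16.MD (MS PB Am RW Rich)
open UnitAddTorus (mFourier)

theorem dec_norm_sq {r d : ℕ} (F : LL r d) : ‖F‖ ^ 2 = ∫ θ, ‖(F : T r → E d) θ‖ ^ 2 ∂(mm r) := by
  have h1 : (inner ℂ F F : ℂ) = ∫ θ, (inner ℂ ((F : T r → E d) θ) ((F : T r → E d) θ) : ℂ) ∂(mm r) :=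
    L2.inner_def F F
  have h2 : (inner ℂ F F : ℂ) = ((‖F‖ ^ 2 : ℝ) : ℂ) := by
    rw [inner_self_eq_norm_sq_to_K]; push_cast; rfl
  have h3 : (fun θ => (inner ℂ ((F : T r → E d) θ) ((F : T r → E d) θ) : ℂ)) =
      fun θ => ((‖(F : T r → E d) θ‖ ^ 2 : ℝ) : ℂ) := by
    funext θ
    rw [inner_self_eq_norm_sq_to_K]; push_cast; rfl
  rw [h2, h3, integral_complex_ofReal] at h1
  exact_mod_cast h1

theorem dec_norm_pow {r d : ℕ} (W : LL r d →L[ℂ] LL r d) (hW : W ∈ unitary (LL r d →L[ℂ] LL r d))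
    (h : ℕ) (F : LL r d) : ‖(W ^ h) F‖ = ‖F‖ :=
  ContinuousLinearMap.norm_map_of_mem_unitary (pow_mem hW h) F

theorem dec_coe_sum {r d : ℕ} (K : ℕ) (a : ℕ → ℂ) (g' : ℕ → LL r d) (g : ℕ → T r → E d)
    (hg : ∀ k, ∀ᵐ θ ∂(mm r), (g' k : T r → E d) θ = g k θ) :
    ∀ᵐ θ ∂(mm r), ((∑ k ∈ range K, a k • g' k : LL r d) : T r → E d) θ =
      ∑ k ∈ range K, a k • g k θ := by
  induction K with
  | zero =>
    simp only [Finset.range_zero, Finset.sum_empty]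
    exact Lp.coeFn_zero (E d) 2 (mm r)
  | succ K ih =>
    simp only [Finset.sum_range_succ]
    filter_upwards [ih, hg K, Lp.coeFn_add (∑ k ∈ range K, a k • g' k) (a K • g' K),
      Lp.coeFn_smul (a K) (g' K)] with θ h1 h2 h3 h4
    rw [h3, Pi.add_apply, h1, h4, Pi.smul_apply, h2]

theorem st_DEC (hWOP : ST_WOP) (hWPW : ST_WPW) (hATM : ST_ATM) (hDEW : ST_DEW) (hRTR : ST_RTR)
    (hDEE : ST_DEE) : ST_DEC := by
  intro r d β φ v ε κ hUC hv hv1 hε hκ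
  obtain ⟨W, hW, hA⟩ := hWOP r d β φ hUC
  set v' : LL r d := ContinuousMap.toLp 2 (mm r) ℂ (⟨v, hv⟩ : C(T r, E d)) with hv'def
  have hv' : ∀ᵐ θ ∂(mm r), (v' : T r → E d) θ = v θ :=
    ContinuousMap.coeFn_toLp (𝕜 := ℂ) (mm r) (⟨v, hv⟩ : C(T r, E d))
  have hv'1 : ∀ᵐ θ ∂(mm r), ‖(v' : T r → E d) θ‖ ≤ 1 := by
    filter_upwards [hv'] with θ h
    rw [h]; exact hv1 θ
  obtain ⟨w, hw, hvw, hw1⟩ := hDEW r d β φ W v' hUC hA hv'1
  have hκ1 : 0 < min κ 1 := lt_min hκ one_pos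
  set κ₁ : ℝ := min κ 1 with hκ₁
  set Cn : ℕ := ⌊4 / κ₁⌋₊ + 1 with hCn
  have hCn4 : 4 / κ₁ < (Cn : ℝ) := by
    rw [hCn]; push_cast; exact Nat.lt_floor_add_one _
  have he1 : 0 < min (ε / 2) (κ₁ / 4) := lt_min (by linarith) (by linarith)
  obtain ⟨c, f, hc, hc1, hfc, hfw⟩ := hRTR r d w (min (ε / 2) (κ₁ / 4)) he1 hw1
  obtain ⟨K, z, g, g', hz, hg, hg', hdee⟩ :=
    hDEE r d W (v' - w) (ε / 2) hW hvw (by linarith)
  have hb : Continuous fun θ => v θ - c θ := hv.sub hc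
  have hfb : ∀ᵐ θ ∂(mm r), ((v' - f : LL r d) : T r → E d) θ = (fun θ => v θ - c θ) θ := by
    filter_upwards [hv', hfc, Lp.coeFn_sub v' f] with θ h1 h2 h3
    rw [h3, Pi.sub_apply, h1, h2]
  refine ⟨fun θ => v θ - c θ, c, hb, hc, fun θ => by simp, hc1, ⟨K, z, g, fun k => ⟨hz k, hg k⟩,
    fun h => ?_⟩, Cn, by omega, ?_⟩
  · have h1 := (hWPW r d β φ W (fun θ => v θ - c θ) (v' - f) hUC hA hb hfb).1 h
    have h2 := dec_coe_sum K (fun k => z k ^ h) g' g hg'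
    have h3 : ∫ θ, ‖Wk β φ h (fun θ => v θ - c θ) θ - ∑ k ∈ range K, (z k ^ h) • g k θ‖ ^ 2
        ∂(mm r) = ‖(W ^ h) (v' - f) - ∑ k ∈ range K, (z k ^ h) • g' k‖ ^ 2 := by
      rw [dec_norm_sq]
      refine integral_congr_ae ?_
      filter_upwards [h1, h2, Lp.coeFn_sub ((W ^ h) (v' - f))
        (∑ k ∈ range K, (z k ^ h) • g' k)] with θ k1 k2 k3
      rw [k3, Pi.sub_apply, k1, k2]
    rw [h3]
    have h4 : (W ^ h) (v' - f) - ∑ k ∈ range K, (z k ^ h) • g' k =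
        ((W ^ h) (v' - w) - ∑ k ∈ range K, (z k ^ h) • g' k) - (W ^ h) (f - w) := by
      have : v' - f = (v' - w) - (f - w) := by abel
      rw [this, map_sub]; abel
    have h5 : ‖(W ^ h) (v' - f) - ∑ k ∈ range K, (z k ^ h) • g' k‖ ≤ ε := by
      rw [h4]
      refine (norm_sub_le _ _).trans ?_
      rw [dec_norm_pow W hW]
      have := hdee h
      have h6 := hfw.trans (min_le_left _ _)
      linarith
    exact pow_le_pow_left₀ (norm_nonneg _) h5 2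
  · by_contra hcon
    have hfreq : ∃ᶠ i : ℕ in atTop, Rich 1 i ∧ κ₁ * (PB 1 i).card * ((Cn : ℝ) * 2 ^ i) ^ 2 <
        ∑ p ∈ PB 1 i, ∑ h ∈ range (Cn * 2 ^ i), ∑ h' ∈ range (Cn * 2 ^ i),
        ‖(inner ℂ ((W ^ (p * h)) f) ((W ^ (p * h')) f) : ℂ)‖ ^ 2 := by
      rw [Filter.not_eventually] at hcon
      refine hcon.mono ?_
      intro i hi
      rw [Classical.not_imp, not_le] at hi
      refine ⟨hi.1, ?_⟩
      have h1 : κ₁ * (PB 1 i).card * ((Cn : ℝ) * 2 ^ i) ^ 2 ≤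
          κ * (PB 1 i).card * ((Cn : ℝ) * 2 ^ i) ^ 2 := by
        gcongr
        exact min_le_left _ _
      refine h1.trans_lt (hi.2.trans_le (le_of_eq ?_))
      refine Finset.sum_congr rfl fun p _ => Finset.sum_congr rfl fun h _ =>
        Finset.sum_congr rfl fun h' _ => ?_
      rw [(hWPW r d β φ W c f hUC hA hc hfc).2 (p * h) (p * h')]
    have hf1 : ‖f‖ ≤ 1 := by
      have h1 : ‖f‖ ^ 2 ≤ 1 := by
        rw [dec_norm_sq]
        have h2 : ∀ᵐ θ ∂(mm r), ‖(f : T r → E d) θ‖ ^ 2 ≤ (1 : ℝ) := by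
          filter_upwards [hfc] with θ h
          rw [h]
          have := hc1 θ
          nlinarith [norm_nonneg (c θ)]
        calc ∫ θ, ‖(f : T r → E d) θ‖ ^ 2 ∂(mm r) ≤ ∫ _θ, (1 : ℝ) ∂(mm r) := by
              refine integral_mono_of_nonneg (Eventually.of_forall fun θ => by positivity)
                (integrable_const _) h2
          _ = 1 := by simp
      nlinarith [norm_nonneg f]
    obtain ⟨η, hη1, hηE, hη⟩ := hATM κ₁ Cn hκ1 (min_le_right _ _) hCn4 (LL r d) W f hW hf1 hfreq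
    have hηP : η ∈ PP W := Submodule.le_topologicalClosure _ (Submodule.subset_span hηE)
    have h0 : (inner ℂ η w : ℂ) = 0 := (Submodule.mem_orthogonal _ _).1 hw η hηP
    have h1 : (inner ℂ η f : ℂ) = inner ℂ η (f - w) := by rw [inner_sub_right, h0, sub_zero]
    have h2 : ‖(inner ℂ η (f - w) : ℂ)‖ ≤ ‖η‖ * ‖f - w‖ := norm_inner_le_norm _ _
    have h3 := hfw.trans (min_le_right _ _)
    rw [h1] at hη
    have h4 : ‖η‖ * ‖f - w‖ ≤ 1 * (κ₁ / 4) :=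
      mul_le_mul hη1 h3 (norm_nonneg _) zero_le_one
    linarith

end Pool.Agent.Helper16.AZ
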